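import Pool.Agent.helper63.TI.SpecA

set_option autoImplicit false

namespace Pool.Agent.TI

open Polynomial NumberField Pool.Agent.GJ Pool.Agent.TK Pool.Agent.TQ Pool.Agent.TFQ Pool.Agent.TD Pool.Agent.AQ
open Pool.Agent.FJ (VT Om chiO IsFrobO rf rs)
open scoped TensorProduct

noncomputable section

section linear
variable {q : ℕ} [Fact q.Prime] {V : Type} [AddCommGroup V] [Module ℚ_[q] V]

theorem LF2_bs_comp (A B : V →ₗ[ℚ_[q]] V) (w : PadicAlgCl q ⊗[ℚ_[q]] V) :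
    bs (A ∘ₗ B) w = bs A (bs B w) := by
  rw [bs, bs, bs, LinearMap.baseChange_comp]
  rfl

theorem LF2_bs_id (w : PadicAlgCl q ⊗[ℚ_[q]] V) : bs (LinearMap.id : V →ₗ[ℚ_[q]] V) w = w := by
  rw [bs, LinearMap.baseChange_id]
  rfl

theorem LF2_bs_pow (A : Module.End ℚ_[q] V) (n : ℕ) (w : PadicAlgCl q ⊗[ℚ_[q]] V) :
    bs (A ^ n) w = ((bs A : Module.End (PadicAlgCl q) (PadicAlgCl q ⊗[ℚ_[q]] V)) ^ n) w := by
  induction n generalizing w with
  | zero =>
    rw [pow_zero, pow_zero]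
    exact LF2_bs_id w
  | succ n ih =>
    rw [pow_succ, pow_succ]
    have h : (A ^ n * A : Module.End ℚ_[q] V) = (A ^ n) ∘ₗ A := rfl
    rw [h, LF2_bs_comp, ih]
    rfl

theorem LF2_eg_stable (A Z : V →ₗ[ℚ_[q]] V) (h : A ∘ₗ Z = Z ∘ₗ A) (ζ : PadicAlgCl q) (r : ℕ)
    (w : PadicAlgCl q ⊗[ℚ_[q]] V) (hw : w ∈ eg (bs Z) ζ r) : bs A w ∈ eg (bs Z) ζ r := by
  have h1 : bs Z w = ζ ^ r • w := by
    have h2 := LinearMap.mem_ker.1 hw
    rw [LinearMap.sub_apply, LinearMap.smul_apply, LinearMap.id_apply, sub_eq_zero] at h2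
    exact h2
  refine LinearMap.mem_ker.2 ?_
  rw [LinearMap.sub_apply, LinearMap.smul_apply, LinearMap.id_apply, sub_eq_zero,
    ← LF2_bs_comp, ← h, LF2_bs_comp, h1, map_smul]

theorem LF2_pow_eig (A : Module.End ℚ_[q] V) (c : PadicAlgCl q) (w : PadicAlgCl q ⊗[ℚ_[q]] V)
    (h : bs A w = c • w) (n : ℕ) : bs (A ^ n) w = c ^ n • w := by
  rw [LF2_bs_pow]
  induction n with
  | zero => rw [pow_zero, pow_zero, one_smul]; rfl
  | succ n ih =>
    rw [pow_succ', Module.End.mul_apply, ih, map_smul, h, smul_smul, pow_succ]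

end linear

theorem LF2_bases (hLDE : AQ.LDE_stmt) {l : ℕ} [Fact l.Prime] (D : Dat l)
    (hn : ∀ i, 0 < D.n i) (θ : ∀ i, ExteriorAlgebra ℚ_[l] (VA D l i)) (hOK : TQ.IsOK D θ)
    (i : Fin D.k) (φ : Om ≃+* Om) (hφ : PF D φ)
    (s : rootsOfUnity l Om) (hs : Prim s) (ζ : PadicAlgCl l) (hζ : IsPrimitiveRoot ζ l)
    (hW : ∀ r : ℕ, 0 < r → r < l →
      ∃ (κ : PadicAlgCl l) (ξ : Fin (D.n i) → PadicAlgCl l)
        (u : Module.Basis (Fin (D.n i)) (PadicAlgCl l) (ES D l i s ζ r)),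
        κ ≠ 0 ∧ Function.Injective ξ ∧ (∀ t, ξ t ^ D.n i = κ) ∧
          ∀ t, bs (galP l hφ i) (u t : WA D l i) = ξ t • (u t : WA D l i))
    (hsum : ∀ i', ∑ j ∈ Finset.range l, (zA D l i' s : Module.End ℚ_[l] (VA D l i')) ^ j = 0) :
    ∃ u : ∀ i', ∀ r' : Fin ((l - 1) / 2),
      Module.Basis (Fin (D.n i')) (PadicAlgCl l) (ES D l i' s ζ ((r' : ℕ) + 1)),
      ∀ r' : Fin ((l - 1) / 2), ∃ (κ : PadicAlgCl l) (ξ : Fin (D.n i) → PadicAlgCl l),
        κ ≠ 0 ∧ Function.Injective ξ ∧ (∀ t, ξ t ^ D.n i = κ) ∧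
        ∀ t, bs (galP l hφ i) (u i r' t : WA D l i) = ξ t • (u i r' t : WA D l i) := by
  have key : ∀ (i' : Fin D.k) (r' : Fin ((l - 1) / 2)),
      ∃ u : Module.Basis (Fin (D.n i')) (PadicAlgCl l) (ES D l i' s ζ ((r' : ℕ) + 1)),
        i' = i → ∃ (κ : PadicAlgCl l) (ξ : Fin (D.n i') → PadicAlgCl l),
          κ ≠ 0 ∧ Function.Injective ξ ∧ (∀ t, ξ t ^ D.n i' = κ) ∧
          ∀ t, bs (galP l hφ i') (u t : WA D l i') = ξ t • (u t : WA D l i') := by
    intro i' r'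
    have hr1 : (r' : ℕ) + 1 < l := by
      have := r'.2
      omega
    by_cases h : i' = i
    · subst h
      obtain ⟨κ, ξ, u, h1, h2, h3, h4⟩ := hW ((r' : ℕ) + 1) (by omega) hr1
      exact ⟨u, fun _ => ⟨κ, ξ, h1, h2, h3, h4⟩⟩
    · obtain ⟨v, b, hb⟩ := hOK.free i' s hs
      obtain ⟨h1, -⟩ := hLDE ℚ_[l] (PadicAlgCl l) (VA D l i') l (D.n i') Fact.out
        (zA D l i' s) v b hb (hsum i') ζ hζ
      have h2 := h1 ((r' : ℕ) + 1) (by omega) hr1
      have hfin : Module.Finite (PadicAlgCl l) (ES D l i' s ζ ((r' : ℕ) + 1)) :=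
        Module.finite_of_finrank_pos (by
          show 0 < Module.finrank (PadicAlgCl l) (eg (bs (zA D l i' s)) ζ ((r' : ℕ) + 1))
          rw [h2]
          exact hn i')
      exact ⟨Module.finBasisOfFinrankEq _ _ h2, fun h' => absurd h' h⟩
  choose u hu using key
  exact ⟨u, fun r' => hu i r' rfl⟩

theorem LF2_generic {l : ℕ} [Fact l.Prime] (D : Dat l) (i : Fin D.k) (hn : 0 < D.n i)
    (r : Fin ((l - 1) / 2)) (B s' : ℕ) (hs' : 0 < s')
    (y : ∀ i, Fin ((l - 1) / 2) → Fin (D.n i) → Fin (D.n i) → PadicAlgCl l)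
    (hy : ∀ k : ∀ i, Fin ((l - 1) / 2) → Fin (D.n i) → ℤ, (∀ i r t, |k i r t| ≤ ((B * s' : ℕ) : ℤ)) →
      (¬ ∀ i r t t', k i r t = k i r t') →
      ∑ i, ∑ r, ∑ t, (k i r t : PadicAlgCl l) * y i r t t ≠ 0)
    (k : Fin (D.n i) → ℤ) (hk : ∀ t, |k t| ≤ (B : ℤ)) (hk0 : ∑ t, k t = 0) (hk1 : k ≠ 0) :
    ∑ t, (k t : PadicAlgCl l) * ((s' : PadicAlgCl l) * y i r t t) ≠ 0 := by
  classical
  let k' : ∀ i, Fin ((l - 1) / 2) → Fin (D.n i) → ℤ :=
    Function.update (fun _ _ _ => 0) i (Function.update (fun _ _ => 0) r (fun t => s' * k t))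
  have h1 : ∀ t, k' i r t = s' * k t := by
    intro t
    simp only [k', Function.update_self]
  have h2 : ∀ r', r' ≠ r → ∀ t, k' i r' t = 0 := by
    intro r' hr' t
    simp only [k', Function.update_self, Function.update_of_ne hr']
  have h3 : ∀ i', i' ≠ i → ∀ r' t, k' i' r' t = 0 := by
    intro i' hi' r' t
    simp only [k', Function.update_of_ne hi']
  have hsum : ∑ i, ∑ r, ∑ t, (k' i r t : PadicAlgCl l) * y i r t t =
      ∑ t, (k t : PadicAlgCl l) * ((s' : PadicAlgCl l) * y i r t t) := by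
    rw [Finset.sum_eq_single i, Finset.sum_eq_single r]
    · refine Finset.sum_congr rfl fun t _ => ?_
      rw [h1]
      push_cast
      ring
    · intro r' _ hr'
      refine Finset.sum_eq_zero fun t _ => ?_
      rw [h2 r' hr', Int.cast_zero, zero_mul]
    · intro h
      exact absurd (Finset.mem_univ _) h
    · intro i' _ hi'
      refine Finset.sum_eq_zero fun r' _ => Finset.sum_eq_zero fun t _ => ?_
      rw [h3 i' hi', Int.cast_zero, zero_mul]
    · intro h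
      exact absurd (Finset.mem_univ _) h
  rw [← hsum]
  refine hy k' ?_ ?_
  · intro i' r' t
    by_cases hi' : i' = i
    · subst hi'
      by_cases hr' : r' = r
      · subst hr'
        rw [h1, abs_mul]
        have := hk t
        have e : |((s' : ℕ) : ℤ)| = (s' : ℤ) := abs_of_nonneg (by positivity)
        rw [e]
        push_cast
        nlinarith
      · rw [h2 r' hr', abs_zero]
        positivity
    · rw [h3 i' hi', abs_zero]
      positivity
  · intro hall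
    apply hk1
    have h4 : ∀ t t', k t = k t' := by
      intro t t'
      have := hall i r t t'
      rw [h1, h1] at this
      have hs0 : (s' : ℤ) ≠ 0 := by exact_mod_cast hs'.ne'
      exact mul_left_cancel₀ hs0 this
    have t0 : Fin (D.n i) := ⟨0, hn⟩
    have h5 : ∑ t, k t = (D.n i : ℤ) * k t0 := by
      rw [Finset.sum_congr rfl fun t _ => h4 t t0, Finset.sum_const, Finset.card_univ,
        Fintype.card_fin, nsmul_eq_mul]
    rw [hk0] at h5
    have h6 : k t0 = 0 := by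
      have hn0 : ((D.n i : ℕ) : ℤ) ≠ 0 := by exact_mod_cast hn.ne'
      exact (mul_eq_zero.1 h5.symm).resolve_left hn0
    funext t
    rw [h4 t t0, h6]
    rfl

theorem LF2 (hSUY : SUY_stmt) (hAVG : AVG_stmt) (hREL : REL_stmt) (hPER : PER_stmt)
    (hELN : ELN_stmt) (hNRM : NRM_stmt) (hAPD : APD_stmt) (hCNJ : CNJ_stmt) (hFDN : FDN_stmt)
    (hNRA : NRA_stmt) (hBGP : AQ.BGP_stmt) (hLDE : AQ.LDE_stmt) (hT7 : GJ.T7_stmt)
    (hNB1 : TQ.NB1_stmt) (hDD : GJ.DD_stmt) : LF2_stmt := by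
  classical
  intro l q _ _ hl D hn hInd hSep hPF θ hOK i φ hWC s hs ζ hζ r K s' B D0 hs' hdiv hfix hD0
  have hlp : l.Prime := Fact.out
  have hded : ∀ i, IsDedekindDomain (CR Om l (D.μ i) (D.a i)) := fun i => by
    have : NeZero (l : Om) := ⟨by exact_mod_cast hlp.ne_zero⟩
    exact hDD Om l (D.n i) (D.μ i) (D.a i)
  obtain ⟨nb1, nb2, nb3, -, -, nb6, nb7, -, -, -, -, nb12, -⟩ := hNB1 l l D
  obtain ⟨bg1, bg2, bg3, bgi⟩ := hBGP l l D
  obtain ⟨bg4, bg5, bg6, bg7, bg8⟩ := bgi i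
  obtain ⟨hφ, hW⟩ := hWC
  have hfd : ∀ i', FiniteDimensional ℚ_[l] (VA D l i') := by
    intro i'
    obtain ⟨v, b, -⟩ := hOK.free i' s hs
    exact Module.Finite.of_basis b
  have hr1 : (r : ℕ) + 1 < l := by
    have := r.2
    omega
  have hLat : Lat l (TZ D l i) := by
    obtain ⟨T, hT1, hT2⟩ := nb12 i (hfd i)
    have : T = TZ D l i := by
      ext f
      exact hT2 f
    rw [← this]
    exact hT1
  obtain ⟨u, hu⟩ := LF2_bases hLDE D hn θ hOK i φ hφ s hs ζ hζ (hW s hs ζ hζ)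
    (fun i' => nb7 i' s hs)
  obtain ⟨κ, ξ, hκ, hξ, hξn, hξu⟩ := hu r
  -- the generic element
  obtain ⟨Y0, y0, hY1, hY2, hY3, hY4⟩ := hSUY l hl D hn θ hOK s hs ζ hζ u (max B 1 * s')
  have hφi : PF D φ⁻¹ := bg3 φ hφ
  have hPP : galP l hφi i * galP l hφ i = 1 := by
    refine LinearMap.ext fun v => ?_
    have h1 : φ⁻¹ * φ = 1 := inv_mul_cancel φ
    have h2 : PF D (φ⁻¹ * φ) := by rw [h1]; exact bg1
    have h3 := bg4 φ⁻¹ φ hφi hφ h2 v
    have h4 : galP l h2 i v = v := by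
      have : ∀ (ψ : Om ≃+* Om) (h : PF D ψ), ψ = 1 → galP l h i v = v := by
        intro ψ h hψ
        subst hψ
        exact bg5 h v
      exact this _ h2 h1
    rw [h4] at h3
    exact h3.symm
  obtain ⟨P, hP⟩ : ∃ P : Module.End ℚ_[l] (VA D l i), P = galP l hφ i := ⟨_, rfl⟩
  obtain ⟨P', hP'⟩ : ∃ P' : Module.End ℚ_[l] (VA D l i), P' = galP l hφi i := ⟨_, rfl⟩
  rw [← hP, ← hP'] at hPP
  obtain ⟨Y', hY'⟩ : ∃ Y' : Module.End ℚ_[l] (VA D l i), Y' = av P P' (Y0 i) s' := ⟨_, rfl⟩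
  obtain ⟨y, hyd⟩ : ∃ y : Fin (D.n i) → PadicAlgCl l, y = fun t => (s' : PadicAlgCl l) * y0 i r t t :=
    ⟨_, rfl⟩
  have hav : ∀ t, bs Y' (u i r t : WA D l i) = y t • (u i r t : WA D l i) := by
    intro t
    rw [hY', hyd]
    exact hAVG l (VA D l i) P P' (Y0 i) (D.n i) κ ξ (fun t => (u i r t : WA D l i)) (y0 i r) hPP hκ
      hξ hξn (fun t => by rw [hP]; exact hξu t) (hY3 i r) s' hdiv t
  have hgen : ∀ k : Fin (D.n i) → ℤ, (∀ t, |k t| ≤ ((max B 1 : ℕ) : ℤ)) → ∑ t, k t = 0 → k ≠ 0 →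
      ∑ t, (k t : PadicAlgCl l) * y t ≠ 0 := by
    intro k hk hk0 hk1
    rw [hyd]
    exact LF2_generic D i (hn i) r (max B 1) s' hs' y0 hY4 k hk hk0 hk1
  have hyinj : Function.Injective y := by
    intro t t' htt
    by_contra hne
    have h1 := hgen (Pi.single t 1 - Pi.single t' 1) (by
      intro a
      have h2 : (1 : ℤ) ≤ ((max B 1 : ℕ) : ℤ) := by
        have := le_max_right B 1
        exact_mod_cast this
      refine le_trans ?_ h2
      simp only [Pi.sub_apply, Pi.single_apply]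
      split_ifs <;> simp) (by
      simp [Finset.sum_sub_distrib]) (by
      intro h0
      have h2 := congrFun h0 t
      simp [hne] at h2)
    apply h1
    have h3 : ∀ a, (((Pi.single t 1 - Pi.single t' 1 : Fin (D.n i) → ℤ) a : ℤ) : PadicAlgCl l) * y a =
        (if a = t then y a else 0) - (if a = t' then y a else 0) := by
      intro a
      simp only [Pi.sub_apply, Pi.single_apply]
      split_ifs <;> simp
    rw [Finset.sum_congr rfl fun a _ => h3 a, Finset.sum_sub_distrib]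
    simp [htt]
  obtain ⟨ε, N1, hε, hrel⟩ := hREL l (Fin (D.n i)) y (max B 1)
  -- the operator P ^ s'
  obtain ⟨κ', hκ'⟩ : ∃ κ' : PadicAlgCl l, κ' = κ ^ (s' / D.n i) := ⟨_, rfl⟩
  have hκ'0 : κ' ≠ 0 := by rw [hκ']; exact pow_ne_zero _ hκ
  have hPinj : ∀ n : ℕ, P' ^ n * P ^ n = 1 := by
    intro n
    induction n with
    | zero => simp
    | succ n ih => rw [pow_succ, pow_succ', mul_assoc, ← mul_assoc P', hPP, one_mul, ih]
  have hΦinj : Function.Injective (P ^ s' : Module.End ℚ_[l] (VA D l i)) := by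
    intro a b hab
    have h1 : (P' ^ s' * P ^ s' : Module.End ℚ_[l] (VA D l i)) a = (P' ^ s' * P ^ s' : Module.End ℚ_[l] (VA D l i)) b := by
      rw [Module.End.mul_apply, Module.End.mul_apply, hab]
    rw [hPinj] at h1
    exact h1
  have hΦU : ∀ w ∈ ES D l i s ζ ((r : ℕ) + 1), bs (P ^ s' : Module.End ℚ_[l] (VA D l i)) w = κ' • w := by
    intro w hw
    have h1 := (u i r).sum_repr ⟨w, hw⟩
    have h2 : w = ∑ t, (u i r).repr ⟨w, hw⟩ t • (u i r t : WA D l i) := by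
      have h3 := congrArg Subtype.val h1
      refine h3.symm.trans ?_
      rw [AddSubmonoidClass.coe_finset_sum]
      rfl
    have h4 : ∀ t, bs (P ^ s' : Module.End ℚ_[l] (VA D l i)) (u i r t : WA D l i) = κ' • (u i r t : WA D l i) := by
      intro t
      rw [LF2_pow_eig P (ξ t) _ (by rw [hP]; exact hξu t)]
      congr 1
      obtain ⟨c, hc⟩ := hdiv
      rw [hκ', hc, Nat.mul_div_cancel_left _ (hn i), ← hξn t, ← pow_mul]
    rw [h2, map_sum, Finset.smul_sum]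
    refine Finset.sum_congr rfl fun t _ => ?_
    rw [map_smul, h4, smul_comm]
  obtain ⟨m, hm⟩ := hPER l (VA D l i) (TZ D l i) hLat (ES D l i s ζ ((r : ℕ) + 1)) (D.n i) (u i r)
    (P ^ s') Y' κ' y hΦinj hκ'0 hΦU hav hyinj ε hε
  -- congruence subgroups
  obtain ⟨Nq, Sq, hNq1, hNq2, hNq3, hNq4⟩ := hNRM l q hl D hn hPF K
  obtain ⟨N2, hN2⟩ := hAPD l hl D hInd hSep θ hOK Nq (by
    intro σ
    obtain ⟨m, hm0, hm1⟩ := hT7 Sq
    exact ⟨m, hm0, hNq1 (fun x hx => hm1 σ x hx)⟩) Y0 hY1 m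
  obtain ⟨N3, hN3⟩ := hCNJ l D i (hfd i) φ hφ P' (Y0 i) (by rw [← hP]; exact hPP) s' m
  obtain ⟨N4, hN4⟩ := (hNRA l (VA D l i) (TZ D l i) hLat).2.2.1 0 (Y0 i) m
  obtain ⟨N, hNd⟩ : ∃ N : ℕ, N = max (max N1 N2) (max N3 N4) := ⟨_, rfl⟩
  have hN1' : N1 ≤ N := by rw [hNd]; exact le_trans (le_max_left _ _) (le_max_left _ _)
  have hN2' : N2 ≤ N := by rw [hNd]; exact le_trans (le_max_right _ _) (le_max_left _ _)
  have hN3' : N3 ≤ N := by rw [hNd]; exact le_trans (le_max_left _ _) (le_max_right _ _)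
  have hN4' : N4 ≤ N := by rw [hNd]; exact le_trans (le_max_right _ _) (le_max_right _ _)
  obtain ⟨h, hh, hhN, hhrt, hhNr⟩ := hN2 N hN2'
  obtain ⟨Nl, Sl, hNl1, hNl2, hNl3, hNl4⟩ := hNRM l l hl D hn hPF (N + m)
  -- the density theorem
  let S0 : Finset Om := (nthRoots l (1 : Om)).toFinset
  have hS0 : ∀ x : Om, x ∈ S0 ↔ x ^ l = 1 := by
    intro x
    simp only [S0, Multiset.mem_toFinset, mem_nthRoots hlp.pos]
  have hFx : ∀ g : Om ≃+* Om, g ∈ Fx S0 ↔ ∀ x : Om, x ^ l = 1 → g x = x := by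
    intro g
    constructor
    · intro h x hx
      exact h x ((hS0 x).2 hx)
    · intro h x hx
      exact h x ((hS0 x).1 hx)
  obtain ⟨p, hp, O, hO, F, v, hF0, hFr, hFD, hv, hFN⟩ := hFDN S0 (Sq ∪ Sl) (Nq ⊓ Nl)
    (fun g hg => (hFx g).2 (hNq2 g hg.1).2)
    (fun g hg x hx => ⟨hNq3 g ((hFx g).1 hg) x hx.1, hNl3 g ((hFx g).1 hg) x hx.2⟩)
    (fun g hg => ⟨hNq1 fun x hx => hg x (Finset.mem_union_left _ hx),
      hNl1 fun x hx => hg x (Finset.mem_union_right _ hx)⟩)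
    (φ * h) ((hFx _).2 fun x hx => by
      show φ (h x) = x
      rw [(hNq2 h hhN).2 x hx]
      exact hφ.1 x hx) D0 hD0
  have hFl : ∀ x : Om, x ^ l = 1 → F x = x := (hFx F).1 hF0
  -- the element u
  obtain ⟨ν, hν⟩ : ∃ ν : Om ≃+* Om, ν = F ^ v * (φ * h)⁻¹ := ⟨_, rfl⟩
  rw [← hν] at hFN
  have hφil : ∀ x : Om, x ^ l = 1 → φ⁻¹ x = x := hφi.1
  have hν1 : φ⁻¹ * ν * φ ∈ Nq := by
    have := hNq3 φ⁻¹ hφil ν hFN.1
    rwa [inv_inv] at this
  have hν2 : φ⁻¹ * ν * φ ∈ Nl := by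
    have := hNl3 φ⁻¹ hφil ν hFN.2
    rwa [inv_inv] at this
  obtain ⟨w, hw⟩ : ∃ w : Om ≃+* Om, w = φ⁻¹ * ν * φ * h := ⟨_, rfl⟩
  have hwN : w ∈ Nq := by rw [hw]; exact Nq.mul_mem hν1 hhN
  have hFw : F ^ v = φ * w := by
    rw [hw, hν]
    group
  obtain ⟨hwF, hwl⟩ := hNq2 w hwN
  obtain ⟨hνF, -⟩ := hNq2 _ hν1
  have hwNr : Nr (TZ D l i) (galA l hwF i) (Y0 i) N m := by
    have e1 : Nr (TZ D l i) (galA l hνF i) 0 N m := by
      intro t ht
      obtain ⟨t', ht', e⟩ := (hNl4 _ hν2).2 hνF i t ht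
      refine ⟨t', ht', ?_⟩
      rw [e, LinearMap.zero_apply, smul_zero, add_zero]
    have e2 := hN4 N hN4' _ _ e1 (hhNr i)
    rw [zero_add] at e2
    have e3 : galA l hwF i = galA l hνF i ∘ₗ galA l hh i := by
      have : ∀ (ψ : Om ≃+* Om) (hψ : D.Fix ψ), ψ = φ⁻¹ * ν * φ * h →
          galA l hψ i = galA l hνF i ∘ₗ galA l hh i := by
        intro ψ hψ e
        subst e
        exact nb1 _ _ hνF hh hψ i
      exact this w hwF hw
    rw [e3]
    exact e2
  obtain ⟨hg, hgNr⟩ := hN3 N hN3' w hwF hwl hwNr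
  rw [← hP, ← hY'] at hgNr
  -- the power of F
  have hpow : (F ^ s') ^ v = φ ^ s' * ((φ ^ s')⁻¹ * (φ * w) ^ s') := by
    rw [mul_inv_cancel_left, ← pow_mul, mul_comm, pow_mul, hFw]
  have hFs : D.Fix (F ^ s') := hfix F
  have hFv : D.Fix ((F ^ s') ^ v) := by
    rw [← pow_mul, mul_comm, pow_mul]
    exact hfix _
  have hPow : ∀ n : ℕ, ∀ hψ : PF D (φ ^ n), ∀ x, galP l hψ i x = (P ^ n) x := by
    intro n
    induction n with
    | zero =>
      intro hψ x
      have h0 : ∀ (ψ : Om ≃+* Om) (h : PF D ψ), ψ = 1 → galP l h i x = x := by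
        intro ψ h hψ
        subst hψ
        exact bg5 h x
      have h1 : (P ^ 0 : Module.End ℚ_[l] (VA D l i)) x = x := by
        rw [pow_zero]
        rfl
      exact (h0 _ hψ (pow_zero φ)).trans h1.symm
    | succ n ih =>
      intro hψ x
      have hn' : PF D (φ ^ n) := by
        clear ih hψ
        induction n with
        | zero => rw [pow_zero]; exact bg1
        | succ n ih => rw [pow_succ]; exact bg2 _ _ ih hφ
      have : ∀ (ψ : Om ≃+* Om) (h : PF D ψ), ψ = φ ^ n * φ → galP l h i x = (P ^ (n + 1)) x := by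
        intro ψ h hψ
        subst hψ
        rw [bg4 _ _ hn' hφ h, ih hn', ← hP, pow_succ, Module.End.mul_apply]
      exact this _ hψ (pow_succ φ n)
  have hHf : ∀ x, galA l hFv i x = (P ^ s') (galA l hg i x) := by
    intro x
    have hφs : PF D (φ ^ s') := by
      have : ∀ n : ℕ, PF D (φ ^ n) := by
        intro n
        induction n with
        | zero => rw [pow_zero]; exact bg1
        | succ n ih => rw [pow_succ]; exact bg2 _ _ ih hφ
      exact this s'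
    have hwP : PF D w := hPF w hwl
    have hgP : PF D ((φ ^ s')⁻¹ * (φ * w) ^ s') := by
      apply hPF
      intro x hx
      have e1 : ∀ g : Om ≃+* Om, (∀ x : Om, x ^ l = 1 → g x = x) → ∀ n : ℕ, ∀ x : Om, x ^ l = 1 → (g ^ n) x = x := by
        intro g hg n
        induction n with
        | zero => intro x _; rfl
        | succ n ih =>
          intro x hx
          rw [pow_succ]
          show (g ^ n) (g x) = x
          rw [hg x hx]
          exact ih x hx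
      show (φ ^ s').symm (((φ * w) ^ s') x) = x
      rw [e1 (φ * w) (fun x hx => by show φ (w x) = x; rw [hwl x hx]; exact hφ.1 x hx) s' x hx,
        RingEquiv.symm_apply_eq]
      exact (e1 φ hφ.1 s' x hx).symm
    have hall : PF D ((F ^ s') ^ v) := by
      rw [hpow]
      exact bg2 _ _ hφs hgP
    rw [← bg6 _ hall hFv]
    have : ∀ (ψ : Om ≃+* Om) (h : PF D ψ), ψ = φ ^ s' * ((φ ^ s')⁻¹ * (φ * w) ^ s') →
        galP l h i x = (P ^ s') (galA l hg i x) := by
      intro ψ h hψ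
      subst hψ
      rw [bg4 _ _ hφs hgP h, hPow s' hφs, bg6 _ hgP hg]
    exact this _ hall hpow
  have hFvl : ∀ x : Om, x ^ l = 1 → ((F ^ s') ^ v) x = x := by
    have e1 : ∀ g : Om ≃+* Om, (∀ x : Om, x ^ l = 1 → g x = x) → ∀ n : ℕ, ∀ x : Om, x ^ l = 1 → (g ^ n) x = x := by
      intro g hg n
      induction n with
      | zero => intro x _; rfl
      | succ n ih =>
        intro x hx
        rw [pow_succ]
        show (g ^ n) (g x) = x
        rw [hg x hx]
        exact ih x hx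
    exact e1 _ (e1 F hFl s') v
  have hFsl : ∀ x : Om, x ^ l = 1 → (F ^ s') x = x := by
    have e1 : ∀ n : ℕ, ∀ x : Om, x ^ l = 1 → (F ^ n) x = x := by
      intro n
      induction n with
      | zero => intro x _; rfl
      | succ n ih =>
        intro x hx
        rw [pow_succ]
        show (F ^ n) (F x) = x
        rw [hFl x hx]
        exact ih x hx
    exact e1 s'
  have hsl : ((s : Omˣ) : Om) ^ l = 1 := hs.pow_eq_one
  obtain ⟨e, η, he1, he2⟩ := hm N (galA l hFv i) (by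
    intro t ht
    obtain ⟨t', ht', e⟩ := hgNr t ht
    exact ⟨t', ht', by rw [hHf, e]⟩) (by
    intro x hx
    exact LF2_eg_stable _ _ (nb6 _ hFv i s (hFvl _ hsl)) _ _ x hx)
  -- the eigenvalues are not zero
  have hHinj : ∃ H' : VA D l i →ₗ[ℚ_[l]] VA D l i, H' ∘ₗ galA l hFv i = LinearMap.id := by
    have h1 : D.Fix ((F ^ s') ^ v)⁻¹ := by
      intro i j
      show ((F ^ s') ^ v).symm (D.a i j) = D.a i j
      rw [RingEquiv.symm_apply_eq]
      exact (hFv i j).symm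
    refine ⟨galA l h1 i, ?_⟩
    have : ∀ (ψ : Om ≃+* Om) (h : D.Fix ψ), ψ = 1 → galA l h i = LinearMap.id := by
      intro ψ h hψ
      subst hψ
      exact nb2 h i
    have h2 : D.Fix (((F ^ s') ^ v)⁻¹ * (F ^ s') ^ v) := by
      rw [inv_mul_cancel]
      intro i j
      rfl
    rw [← nb1 _ _ h1 hFv h2 i]
    exact this _ h2 (inv_mul_cancel _)
  obtain ⟨H', hH'⟩ := hHinj
  have hμ0 : ∀ t, κ' * (1 + (l : PadicAlgCl l) ^ N * η t) ≠ 0 := by
    intro t h0
    have h1 := he1 t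
    rw [h0, zero_smul] at h1
    have h2 : bs H' (bs (galA l hFv i) (e t : WA D l i)) = (e t : WA D l i) := by
      rw [← LF2_bs_comp, hH', LF2_bs_id]
    rw [h1, map_zero] at h2
    have h3 : e t = 0 := Subtype.ext h2.symm
    exact e.ne_zero t h3
  have hrel' : ∀ k : Fin (D.n i) → ℤ, (∀ t, |k t| ≤ ((max B 1 : ℕ) : ℤ)) → ∑ t, k t = 0 → k ≠ 0 →
      ∏ t, (1 + (l : PadicAlgCl l) ^ N * η t) ^ k t ≠ 1 := by
    intro k hk hk0 hk1 hone
    have h1 := hrel N hN1' η 1 he2 (by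
      rw [sub_self, norm_zero]
      positivity) k 0 1 hk one_pos (hgen k hk hk0 hk1)
    apply h1
    rw [hone, zpow_zero, mul_one, one_pow]
  have hμinj : Function.Injective fun t => κ' * (1 + (l : PadicAlgCl l) ^ N * η t) := by
    intro t t' htt
    by_contra hne
    have htt' : 1 + (l : PadicAlgCl l) ^ N * η t = 1 + (l : PadicAlgCl l) ^ N * η t' :=
      mul_left_cancel₀ hκ'0 htt
    refine hrel' (Pi.single t 1 - Pi.single t' 1) (by
      intro a
      have h2 : (1 : ℤ) ≤ ((max B 1 : ℕ) : ℤ) := by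
        have := le_max_right B 1
        exact_mod_cast this
      refine le_trans ?_ h2
      simp only [Pi.sub_apply, Pi.single_apply]
      split_ifs <;> simp) (by
      simp [Finset.sum_sub_distrib]) (by
      intro h0
      have h2 := congrFun h0 t
      simp [hne] at h2) ?_
    have h3 : ∀ a, (1 + (l : PadicAlgCl l) ^ N * η a) ^ ((Pi.single t 1 - Pi.single t' 1 : Fin (D.n i) → ℤ) a) =
        (if a = t then 1 + (l : PadicAlgCl l) ^ N * η a else 1) *
          (if a = t' then (1 + (l : PadicAlgCl l) ^ N * η a)⁻¹ else 1) := by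
      intro a
      simp only [Pi.sub_apply, Pi.single_apply]
      have ha := right_ne_zero_of_mul (hμ0 a)
      split_ifs with c1 c2 c2
      · rw [sub_self, zpow_zero, mul_inv_cancel₀ ha]
      · rw [sub_zero, zpow_one, mul_one]
      · rw [zero_sub, zpow_neg, zpow_one, one_mul]
      · rw [sub_zero, zpow_zero, mul_one]
    rw [Finset.prod_congr rfl fun a _ => h3 a, Finset.prod_mul_distrib]
    simp only [Finset.prod_ite_eq', Finset.mem_univ, if_true]
    rw [htt', mul_inv_cancel₀ (right_ne_zero_of_mul (hμ0 t'))]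
  obtain ⟨c, hc⟩ := hELN l (VA D l i) (galA l hFs i) v (ES D l i s ζ ((r : ℕ) + 1)) (D.n i) e
    (fun t => κ' * (1 + (l : PadicAlgCl l) ^ N * η t)) hμinj
    (fun x hx => LF2_eg_stable _ _ (nb6 _ hFs i s (hFsl _ hsl)) _ _ x hx)
    (fun t => by
      rw [← nb3 _ hFs v hFv i]
      exact he1 t)
  refine ⟨p, hp, O, hO, F, w, v, hwF, hFs, e, c, hFl, hwl, hFr, hFD, hFw,
    (hNq4 w hwN).2 hwF i, fun t => (hc t).2, ?_⟩
  intro k hk hk0 hk1
  by_contra hne
  refine hrel' k (fun t => le_trans (hk t) (by exact_mod_cast le_max_left B 1)) hk0 hne ?_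
  have h1 : (∏ t, c t ^ k t) ^ v = ∏ t, (c t ^ v) ^ k t := by
    rw [← Finset.prod_pow]
    refine Finset.prod_congr rfl fun t _ => ?_
    rw [← zpow_natCast, ← zpow_mul, mul_comm, zpow_mul, zpow_natCast]
  rw [hk1, one_pow] at h1
  have h2 : ∏ t, (c t ^ v) ^ k t = (∏ t, κ' ^ k t) * ∏ t, (1 + (l : PadicAlgCl l) ^ N * η t) ^ k t := by
    rw [← Finset.prod_mul_distrib]
    refine Finset.prod_congr rfl fun t _ => ?_
    rw [(hc t).1, mul_zpow]
  have h3 : ∏ t, κ' ^ k t = 1 := by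
    have : ∀ S : Finset (Fin (D.n i)), ∏ t ∈ S, κ' ^ k t = κ' ^ (∑ t ∈ S, k t) := by
      intro S
      induction S using Finset.induction_on with
      | empty => simp
      | insert a S ha ih => rw [Finset.prod_insert ha, Finset.sum_insert ha, ih, zpow_add₀ hκ'0]
    rw [this, hk0, zpow_zero]
  rw [h2, h3, one_mul] at h1
  exact h1.symm

end

end Pool.Agent.TI
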